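import Mathlib

/-!
MP_df6280_nt. Quadruples with two Diophantine properties: the algebra.
-/

set_option autoImplicit false

namespace Pool.Agent.TWP

/-- determinant of three columns -/
def dt (a b c : Fin 3 → ℝ) : ℝ :=
  a 0 * (b 1 * c 2 - b 2 * c 1) - a 1 * (b 0 * c 2 - b 2 * c 0) + a 2 * (b 0 * c 1 - b 1 * c 0)

/-- the cubic polynomial of a configuration, `u` products, `v` sums -/
def Fq (u v : Fin 3 → ℝ) (q : ℝ) : ℝ :=
  dt u (fun k => v k * (u k + q)) (fun k => (q - u k) ^ 2 + v k ^ 2 * q)

/-- collinearity -/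
def c0 (u v : Fin 3 → ℝ) : ℝ := dt (fun _ => 1) v u
def c1 (u v : Fin 3 → ℝ) : ℝ := dt u (fun k => u k * v k) (fun k => v k ^ 2) + dt u v (fun k => u k ^ 2)
def c2 (u v : Fin 3 → ℝ) : ℝ := dt u (fun k => u k * v k) (fun _ => 1) + dt u v (fun k => v k ^ 2)

theorem Fq_eq (u v : Fin 3 → ℝ) (q : ℝ) :
    Fq u v q = u 0 * u 1 * u 2 * c0 u v + c1 u v * q + c2 u v * q ^ 2 - c0 u v * q ^ 3 := by
  simp only [Fq, c0, c1, c2, dt]
  ring

theorem no_identity {u v x y : Fin 3 → ℝ} (hu : ∀ k, u k = x k * y k) (hv : ∀ k, v k = x k + y k)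
    (hx : ∀ k, 0 < x k) (hy : ∀ k, 0 < y k)
    (hne : ∀ k l, k ≠ l → x k ≠ x l ∧ x k ≠ y l ∧ y k ≠ x l ∧ y k ≠ y l) :
    ¬ (c0 u v = 0 ∧ c1 u v = 0 ∧ c2 u v = 0) := by
  rintro ⟨h0, h1, h2⟩
  -- two pairs cannot have the same sum and product
  have pair : ∀ k l, k ≠ l → ¬ (u k = u l ∧ v k = v l) := by
    rintro k l hkl ⟨e1, e2⟩
    rw [hu, hu] at e1
    rw [hv, hv] at e2
    obtain ⟨n1, n2, -, -⟩ := hne k l hkl
    have : (x k - x l) * (x k - y l) = 0 := by
      have e3 : y k = x l + y l - x k := by linarith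
      rw [e3] at e1
      linear_combination -e1
    rcases mul_eq_zero.1 this with h | h
    · exact n1 (sub_eq_zero.1 h)
    · exact n2 (sub_eq_zero.1 h)
  have hupos : ∀ k, 0 < u k := fun k => by rw [hu]; exact mul_pos (hx k) (hy k)
  have hvpos : ∀ k, 0 < v k := fun k => by rw [hv]; exact add_pos (hx k) (hy k)
  have p01 := pair 0 1 (by decide)
  have p02 := pair 0 2 (by decide)
  have p12 := pair 1 2 (by decide)
  by_cases hall : u 0 = u 1 ∧ u 0 = u 2
  · obtain ⟨e1, e2⟩ := hall
    have h3 : (u 0) ^ 2 * ((v 1 - v 0) * (v 2 - v 0) * (v 2 - v 1)) = 0 := by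
      simp only [c1, dt] at h1
      rw [← e1, ← e2] at h1
      linear_combination h1
    have h4 : (v 1 - v 0) * (v 2 - v 0) * (v 2 - v 1) = 0 := by
      rcases mul_eq_zero.1 h3 with h | h
      · exact absurd h (pow_pos (hupos 0) 2).ne'
      · exact h
    rcases mul_eq_zero.1 h4 with h | h
    · rcases mul_eq_zero.1 h with h | h
      · exact p01 ⟨e1, by linarith⟩
      · exact p02 ⟨e2, by linarith⟩
    · exact p12 ⟨by rw [← e1, e2], by linarith⟩
  · -- v = la + mu u
    have hlin : ∃ la mu : ℝ, ∀ k, v k = la + mu * u k := by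
      simp only [c0, dt] at h0
      by_cases h01 : u 0 = u 1
      · have h02 : u 0 ≠ u 2 := fun h => hall ⟨h01, h⟩
        have h02' : u 2 - u 0 ≠ 0 := sub_ne_zero.2 (Ne.symm h02)
        refine ⟨v 0 - (v 2 - v 0) / (u 2 - u 0) * u 0, (v 2 - v 0) / (u 2 - u 0), ?_⟩
        have e : v 1 = v 0 := by
          have : (v 1 - v 0) * (u 2 - u 0) = 0 := by
            rw [← h01] at h0
            linear_combination h0
          rcases mul_eq_zero.1 this with h | h
          · linarith
          · exact absurd h h02'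
        intro k
        fin_cases k
        · simp
        · simp only [Fin.mk_one, Fin.isValue]
          rw [e, ← h01]; ring
        · simp only [Fin.reduceFinMk, Fin.isValue]
          field_simp
          ring
      · have h01' : u 1 - u 0 ≠ 0 := sub_ne_zero.2 (Ne.symm h01)
        refine ⟨v 0 - (v 1 - v 0) / (u 1 - u 0) * u 0, (v 1 - v 0) / (u 1 - u 0), ?_⟩
        intro k
        fin_cases k
        · simp
        · simp only [Fin.mk_one, Fin.isValue]
          field_simp
          ring
        · simp only [Fin.reduceFinMk, Fin.isValue]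
          have : v 2 * (u 1 - u 0) = v 0 * (u 1 - u 0) + (v 1 - v 0) * (u 2 - u 0) := by
            linear_combination -h0
          field_simp
          linear_combination this
    obtain ⟨la, mu, hl⟩ := hlin
    set Δ := (u 1 - u 0) * (u 2 - u 0) * (u 2 - u 1) with hΔ
    have e1 : la * (mu * la - 1) * Δ = 0 := by
      simp only [c1, dt, hl] at h1
      rw [hΔ]
      linear_combination h1
    have e2 : mu * (1 - la * mu) * Δ = 0 := by
      simp only [c2, dt, hl] at h2
      rw [hΔ]
      linear_combination h2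
    have hΔ0 : Δ ≠ 0 := by
      intro h
      rcases mul_eq_zero.1 h with h | h
      · rcases mul_eq_zero.1 h with h | h
        · exact p01 ⟨by linarith, by rw [hl, hl, show u 1 = u 0 by linarith]⟩
        · exact p02 ⟨by linarith, by rw [hl, hl, show u 2 = u 0 by linarith]⟩
      · exact p12 ⟨by linarith, by rw [hl, hl, show u 2 = u 1 by linarith]⟩
    have e1' : la * (mu * la - 1) = 0 := (mul_eq_zero.1 e1).resolve_right hΔ0
    have e2' : mu * (1 - la * mu) = 0 := (mul_eq_zero.1 e2).resolve_right hΔ0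
    have hlm : la * mu = 1 := by
      rcases mul_eq_zero.1 e1' with h | h
      · rcases mul_eq_zero.1 e2' with h' | h'
        · have := hvpos 0
          rw [hl, h, h'] at this
          simp at this
        · linarith
      · linarith
    have hk : ∀ k, x k = la ∨ y k = la := by
      intro k
      have h3 := hl k
      rw [hu, hv] at h3
      have : (x k - la) * (y k - la) = 0 := by
        linear_combination -la * h3 + (x k * y k) * (-hlm)
      rcases mul_eq_zero.1 this with h | h
      · left; linarith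
      · right; linarith
    obtain ⟨n1, n2, n3, n4⟩ := hne 0 1 (by decide)
    rcases hk 0 with h | h <;> rcases hk 1 with h' | h'
    · exact n1 (h.trans h'.symm)
    · exact n2 (h.trans h'.symm)
    · exact n3 (h.trans h'.symm)
    · exact n4 (h.trans h'.symm)

/-- a nonzero cubic has at most three roots -/
theorem roots_card (c0 c1 c2 c3 : ℝ) (h : ¬ (c0 = 0 ∧ c1 = 0 ∧ c2 = 0 ∧ c3 = 0)) (S : Finset ℝ)
    (hS : ∀ q ∈ S, c0 + c1 * q + c2 * q ^ 2 + c3 * q ^ 3 = 0) : S.card ≤ 3 := by
  classical
  let P : Polynomial ℝ := Polynomial.C c0 + Polynomial.C c1 * Polynomial.X +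
    Polynomial.C c2 * Polynomial.X ^ 2 + Polynomial.C c3 * Polynomial.X ^ 3
  have hP : P ≠ 0 := by
    intro h0
    apply h
    refine ⟨?_, ?_, ?_, ?_⟩
    · have := congrArg (fun p => Polynomial.coeff p 0) h0
      simpa [P] using this
    · have := congrArg (fun p => Polynomial.coeff p 1) h0
      simpa [P, Polynomial.coeff_X, Polynomial.coeff_C, Polynomial.coeff_X_pow] using this
    · have := congrArg (fun p => Polynomial.coeff p 2) h0
      simpa [P, Polynomial.coeff_X, Polynomial.coeff_C, Polynomial.coeff_X_pow] using this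
    · have := congrArg (fun p => Polynomial.coeff p 3) h0
      simpa [P, Polynomial.coeff_X, Polynomial.coeff_C, Polynomial.coeff_X_pow] using this
  have hdeg : P.natDegree ≤ 3 := by
    simp only [P]
    compute_degree
  have hsub : S ⊆ P.roots.toFinset := by
    intro q hq
    rw [Multiset.mem_toFinset, Polynomial.mem_roots hP]
    simpa [P, Polynomial.IsRoot] using hS q hq
  calc S.card ≤ P.roots.toFinset.card := Finset.card_le_card hsub
    _ ≤ P.roots.card := Multiset.toFinset_card_le _
    _ ≤ P.natDegree := Polynomial.card_roots' P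
    _ ≤ 3 := hdeg

/-- the relation satisfied by a quadruple with two properties -/
theorem Fq_zero {u v x y : Fin 3 → ℝ} (hu : ∀ k, u k = x k * y k) (hv : ∀ k, v k = x k + y k)
    (hx : ∀ k, 0 < x k) (hy : ∀ k, 0 < y k) {q ν K : ℝ}
    (h : ∀ k, (x k + q / x k - ν) * (y k + q / y k - ν) = K) : Fq u v q = 0 := by
  have row : ∀ k, (q - u k) ^ 2 + v k ^ 2 * q = ν * (v k * (u k + q)) + (K - ν ^ 2) * u k := by
    intro k
    have h1 := h k
    have hx' := (hx k).ne'
    have hy' := (hy k).ne'
    rw [hu, hv]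
    field_simp at h1
    linear_combination h1
  simp only [Fq, dt, row]
  ring

end Pool.Agent.TWP
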