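import Mathlib

/-!
MP_df6280_nt. A set of numbers which contains few multiples `p m` for every cofactor `m` has density 0.
-/

set_option autoImplicit false

namespace Pool.Agent.TWP

open Finset Filter Topology

theorem card_mult (X d : ℕ) : ((Ioc 0 X).filter fun N => d ∣ N).card = X / d :=
  Nat.Ioc_filter_dvd_card_eq_div X d

/-- numbers without a prime factor in `P` -/
theorem no_factor (X : ℕ) (P : Finset ℕ) (hP : ∀ p ∈ P, p.Prime ∧ p ≤ X)
    (hS : 0 < ∑ p ∈ P, (1 : ℝ) / p) :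
    (((Ioc 0 X).filter fun N => ∀ p ∈ P, ¬ p ∣ N).card : ℝ) ≤ 3 * X / ∑ p ∈ P, (1 : ℝ) / p := by
  classical
  set S := ∑ p ∈ P, (1 : ℝ) / p with hSd
  let w : ℕ → ℝ := fun N => ((P.filter fun p => p ∣ N).card : ℝ)
  have hw (N : ℕ) : w N = ∑ p ∈ P, if p ∣ N then (1 : ℝ) else 0 := by
    simp only [w]
    rw [Finset.card_filter]
    push_cast
    rfl
  have hcm (d : ℕ) : ∑ N ∈ Ioc 0 X, (if d ∣ N then (1 : ℝ) else 0) = ((X / d : ℕ) : ℝ) := by
    rw [← card_mult X d, Finset.card_filter]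
    push_cast
    rfl
  have hsum1 : X * S - P.card ≤ ∑ N ∈ Ioc 0 X, w N := by
    have e : ∑ N ∈ Ioc 0 X, w N = ∑ p ∈ P, ((X / p : ℕ) : ℝ) := by
      simp only [hw]
      rw [Finset.sum_comm]
      exact Finset.sum_congr rfl fun p _ => hcm p
    rw [e, hSd, Finset.mul_sum]
    have e2 : (P.card : ℝ) = ∑ _p ∈ P, (1 : ℝ) := by simp
    rw [e2, ← Finset.sum_sub_distrib]
    refine Finset.sum_le_sum fun p hp => ?_
    have h1 : (X : ℝ) / p < ((X / p : ℕ) : ℝ) + 1 := by
      have := Nat.lt_floor_add_one ((X : ℝ) / p)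
      rwa [Nat.floor_div_eq_div] at this
    have h2 : (X : ℝ) * (1 / p) = X / p := by ring
    rw [h2]
    linarith
  have hsum2 : ∑ N ∈ Ioc 0 X, w N ^ 2 ≤ X * S ^ 2 + X * S := by
    have e : ∑ N ∈ Ioc 0 X, w N ^ 2 = ∑ p ∈ P, ∑ q ∈ P,
        ∑ N ∈ Ioc 0 X, ((if p ∣ N then (1 : ℝ) else 0) * (if q ∣ N then (1 : ℝ) else 0)) := by
      simp only [hw, sq, Finset.sum_mul_sum]
      rw [Finset.sum_comm]
      refine Finset.sum_congr rfl fun p _ => ?_
      rw [Finset.sum_comm]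
    rw [e]
    have hb : ∀ p ∈ P, ∀ q ∈ P, ∑ N ∈ Ioc 0 X, ((if p ∣ N then (1 : ℝ) else 0) * (if q ∣ N then (1 : ℝ) else 0)) ≤
        X * (1 / p * (1 / q)) + if p = q then (X : ℝ) * (1 / p) else 0 := by
      intro p hp q hq
      have hp0 : (0 : ℝ) < p := by exact_mod_cast (hP p hp).1.pos
      have hq0 : (0 : ℝ) < q := by exact_mod_cast (hP q hq).1.pos
      by_cases hpq : p = q
      · subst hpq
        rw [if_pos rfl]
        have : ∀ N ∈ Ioc 0 X, ((if p ∣ N then (1 : ℝ) else 0) * (if p ∣ N then (1 : ℝ) else 0)) =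
            if p ∣ N then (1 : ℝ) else 0 := by
          intro N _
          split_ifs <;> simp
        rw [Finset.sum_congr rfl this, hcm]
        have h1 : ((X / p : ℕ) : ℝ) ≤ X / p := Nat.cast_div_le
        have h2 : 0 ≤ (X : ℝ) * (1 / p * (1 / p)) := by positivity
        have h3 : (X : ℝ) * (1 / p) = X / p := by ring
        linarith
      · rw [if_neg hpq, add_zero]
        have hc : Nat.Coprime p q := (Nat.coprime_primes (hP p hp).1 (hP q hq).1).2 hpq
        have : ∀ N ∈ Ioc 0 X, ((if p ∣ N then (1 : ℝ) else 0) * (if q ∣ N then (1 : ℝ) else 0)) =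
            if p * q ∣ N then (1 : ℝ) else 0 := by
          intro N _
          by_cases h1 : p ∣ N
          · by_cases h2 : q ∣ N
            · rw [if_pos h1, if_pos h2, if_pos (hc.mul_dvd_of_dvd_of_dvd h1 h2), mul_one]
            · rw [if_neg h2, mul_zero, if_neg fun h => h2 ((dvd_mul_left q p).trans h)]
          · rw [if_neg h1, zero_mul, if_neg fun h => h1 ((dvd_mul_right p q).trans h)]
        rw [Finset.sum_congr rfl this, hcm]
        have h1 : ((X / (p * q) : ℕ) : ℝ) ≤ X / ((p * q : ℕ) : ℝ) := Nat.cast_div_le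
        refine h1.trans (le_of_eq ?_)
        push_cast
        field_simp
    calc ∑ p ∈ P, ∑ q ∈ P, ∑ N ∈ Ioc 0 X, ((if p ∣ N then (1 : ℝ) else 0) * (if q ∣ N then (1 : ℝ) else 0))
        ≤ ∑ p ∈ P, ∑ q ∈ P, (X * (1 / p * (1 / q)) + if p = q then (X : ℝ) * (1 / p) else 0) :=
          Finset.sum_le_sum fun p hp => Finset.sum_le_sum fun q hq => hb p hp q hq
      _ = X * S ^ 2 + X * S := by
          simp only [Finset.sum_add_distrib, Finset.sum_ite_eq, ← Finset.mul_sum]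
          rw [hSd]
          have e1 : ∑ p ∈ P, (if p ∈ P then (X : ℝ) * (1 / p) else 0) = X * ∑ p ∈ P, (1 : ℝ) / p := by
            rw [Finset.mul_sum]
            exact Finset.sum_congr rfl fun p hp => if_pos hp
          rw [e1, ← Finset.sum_mul]
          ring
  have hcardP : (P.card : ℝ) ≤ X := by
    have : P.card ≤ X := by
      calc P.card ≤ (Ioc 0 X).card := Finset.card_le_card fun p hp =>
            Finset.mem_Ioc.2 ⟨(hP p hp).1.pos, (hP p hp).2⟩
        _ = X := by simp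
    exact_mod_cast this
  have hX0 : (0 : ℝ) ≤ X := Nat.cast_nonneg X
  have hvar : (((Ioc 0 X).filter fun N => ∀ p ∈ P, ¬ p ∣ N).card : ℝ) * S ^ 2 ≤ 3 * X * S := by
    calc (((Ioc 0 X).filter fun N => ∀ p ∈ P, ¬ p ∣ N).card : ℝ) * S ^ 2
        = ∑ N ∈ (Ioc 0 X).filter fun N => ∀ p ∈ P, ¬ p ∣ N, S ^ 2 := by simp
      _ = ∑ N ∈ (Ioc 0 X).filter fun N => ∀ p ∈ P, ¬ p ∣ N, (w N - S) ^ 2 := by
          refine Finset.sum_congr rfl fun N hN => ?_
          have : w N = 0 := by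
            simp only [w]
            rw [Finset.filter_eq_empty_iff.2 fun p hp => (Finset.mem_filter.1 hN).2 p hp]
            simp
          rw [this]; ring
      _ ≤ ∑ N ∈ Ioc 0 X, (w N - S) ^ 2 :=
          Finset.sum_le_sum_of_subset_of_nonneg (Finset.filter_subset _ _) fun _ _ _ => sq_nonneg _
      _ = ∑ N ∈ Ioc 0 X, w N ^ 2 - 2 * S * ∑ N ∈ Ioc 0 X, w N + X * S ^ 2 := by
          have : ∀ N ∈ Ioc 0 X, (w N - S) ^ 2 = w N ^ 2 - 2 * S * w N + S ^ 2 := fun N _ => by ring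
          rw [Finset.sum_congr rfl this, Finset.sum_add_distrib, Finset.sum_sub_distrib, ← Finset.mul_sum]
          simp
      _ ≤ 3 * X * S := by
          nlinarith [mul_le_mul_of_nonneg_left hsum1 (mul_nonneg two_pos.le hS.le),
            mul_le_mul_of_nonneg_left hcardP (mul_nonneg two_pos.le hS.le)]
  rw [le_div_iff₀ hS]
  have : (((Ioc 0 X).filter fun N => ∀ p ∈ P, ¬ p ∣ N).card : ℝ) * S * S ≤ 3 * X * S := by
    rw [mul_assoc, ← sq]; exact hvar
  exact le_of_mul_le_mul_right this hS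

/-- numbers with a large square factor -/
theorem square_factor (X y : ℕ) (hy : 1 ≤ y) :
    (((Ioc 0 X).filter fun N => ∃ p ∈ Ioc y X, p * p ∣ N).card : ℝ) ≤ X / y := by
  classical
  by_cases hyX : y ≤ X
  · have hsub : ((Ioc 0 X).filter fun N => ∃ p ∈ Ioc y X, p * p ∣ N) ⊆
        (Ioc y X).biUnion fun p => (Ioc 0 X).filter fun N => p * p ∣ N := by
      intro N hN
      obtain ⟨h1, p, hp, hd⟩ := Finset.mem_filter.1 hN
      exact Finset.mem_biUnion.2 ⟨p, hp, Finset.mem_filter.2 ⟨h1, hd⟩⟩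
    calc (((Ioc 0 X).filter fun N => ∃ p ∈ Ioc y X, p * p ∣ N).card : ℝ)
        ≤ ∑ p ∈ Ioc y X, (((Ioc 0 X).filter fun N => p * p ∣ N).card : ℝ) := by
          exact_mod_cast (Finset.card_le_card hsub).trans Finset.card_biUnion_le
      _ ≤ ∑ p ∈ Ioc y X, X * ((p : ℝ) ^ 2)⁻¹ := by
          refine Finset.sum_le_sum fun p hp => ?_
          rw [card_mult]
          refine (Nat.cast_div_le (α := ℝ)).trans (le_of_eq ?_)
          push_cast
          rw [div_eq_mul_inv, sq]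
      _ = X * ∑ p ∈ Ioc y X, ((p : ℝ) ^ 2)⁻¹ := by rw [Finset.mul_sum]
      _ ≤ X * ((y : ℝ)⁻¹ - (X : ℝ)⁻¹) := by
          gcongr
          exact sum_Ioc_inv_sq_le_sub (by omega) hyX
      _ ≤ X / y := by
          rw [div_eq_mul_inv]
          gcongr
          have : (0 : ℝ) ≤ (X : ℝ)⁻¹ := by positivity
          linarith
  · rw [Finset.filter_eq_empty_iff.2]
    · simp only [Finset.card_empty, Nat.cast_zero]; positivity
    · rintro N - ⟨p, hp, -⟩
      rw [Finset.mem_Ioc] at hp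
      omega

/-- numbers with many divisors -/
theorem many_divisors (X D : ℕ) (hD : 1 ≤ D) (hX : 1 ≤ X) :
    (((Ioc 0 X).filter fun N => D < N.divisors.card).card : ℝ) ≤ X * (1 + Real.log X) / D := by
  classical
  have hD0 : (0 : ℝ) < D := by exact_mod_cast hD
  have h1 : ∑ N ∈ Ioc 0 X, N.divisors.card = ∑ d ∈ Ioc 0 X, X / d := by
    have e : ∀ N ∈ Ioc 0 X, N.divisors.card = ∑ d ∈ Ioc 0 X, if d ∣ N then 1 else 0 := by
      intro N hN
      rw [Finset.mem_Ioc] at hN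
      rw [← Finset.card_filter]
      congr 1
      ext d
      rw [Nat.mem_divisors, Finset.mem_filter, Finset.mem_Ioc]
      constructor
      · rintro ⟨h, h0⟩
        exact ⟨⟨Nat.pos_of_dvd_of_pos h hN.1, (Nat.le_of_dvd hN.1 h).trans hN.2⟩, h⟩
      · rintro ⟨-, h⟩
        exact ⟨h, by omega⟩
    rw [Finset.sum_congr rfl e, Finset.sum_comm]
    refine Finset.sum_congr rfl fun d _ => ?_
    rw [← Finset.card_filter, card_mult]
  have h2 : ((∑ d ∈ Ioc 0 X, X / d : ℕ) : ℝ) ≤ X * (1 + Real.log X) := by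
    push_cast
    calc ∑ d ∈ Ioc 0 X, ((X / d : ℕ) : ℝ) ≤ ∑ d ∈ Ioc 0 X, (X : ℝ) * (d : ℝ)⁻¹ :=
          Finset.sum_le_sum fun d _ => (Nat.cast_div_le).trans (le_of_eq (div_eq_mul_inv _ _))
      _ = X * (harmonic X : ℝ) := by
          rw [← Finset.mul_sum, harmonic_eq_sum_Icc]
          push_cast
          rfl
      _ ≤ X * (1 + Real.log X) := by
          gcongr
          exact harmonic_le_one_add_log X
  rw [le_div_iff₀ hD0]
  calc (((Ioc 0 X).filter fun N => D < N.divisors.card).card : ℝ) * D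
      = ∑ N ∈ (Ioc 0 X).filter fun N => D < N.divisors.card, (D : ℝ) := by simp
    _ ≤ ∑ N ∈ (Ioc 0 X).filter fun N => D < N.divisors.card, (N.divisors.card : ℝ) :=
        Finset.sum_le_sum fun N hN => by exact_mod_cast (Finset.mem_filter.1 hN).2.le
    _ ≤ ∑ N ∈ Ioc 0 X, (N.divisors.card : ℝ) :=
        Finset.sum_le_sum_of_subset_of_nonneg (Finset.filter_subset _ _) fun _ _ _ => Nat.cast_nonneg _
    _ = ((∑ d ∈ Ioc 0 X, X / d : ℕ) : ℝ) := by rw [← h1]; push_cast; rfl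
    _ ≤ _ := h2

open Classical in
/-- the main count -/
theorem main_count (A : Set ℕ) (hA : ∀ (m : ℕ) (S : Finset ℕ),
    (∀ p ∈ S, p.Prime ∧ ¬ p ∣ m ∧ p * m ∈ A) → S.card ≤ 3 * m.divisors.card ^ 6)
    (X y D : ℕ) (hy : 1 ≤ y) (hD : 1 ≤ D) (hX : 1 ≤ X)
    (hS : 0 < ∑ p ∈ (Ioc y X).filter Nat.Prime, (1 : ℝ) / p) :
    (((Ioc 0 X).filter fun N => N ∈ A).card : ℝ) ≤
      3 * X / ∑ p ∈ (Ioc y X).filter Nat.Prime, (1 : ℝ) / p + X / y + X * (1 + Real.log X) / D +
        3 * (D : ℝ) ^ 6 * X / y := by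
  set P := (Ioc y X).filter Nat.Prime with hP
  let E1 := (Ioc 0 X).filter fun N => ∀ p ∈ P, ¬ p ∣ N
  let E2 := (Ioc 0 X).filter fun N => ∃ p ∈ Ioc y X, p * p ∣ N
  let E3 := (Ioc 0 X).filter fun N => D < N.divisors.card
  let M := (Ioc 0 (X / y)).filter fun m => m.divisors.card ≤ D
  let Bm : ℕ → Finset ℕ := fun m => P.filter fun p => ¬ p ∣ m ∧ p * m ∈ A
  let E4 := M.biUnion fun m => (Bm m).image fun p => p * m
  have hcov : ((Ioc 0 X).filter fun N => N ∈ A) ⊆ E1 ∪ E2 ∪ E3 ∪ E4 := by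
    intro N hN
    obtain ⟨hN1, hNA⟩ := Finset.mem_filter.1 hN
    by_cases h1 : N ∈ E1
    · simp [h1]
    by_cases h2 : N ∈ E2
    · simp [h2]
    by_cases h3 : N ∈ E3
    · simp [h3]
    have h4 : N ∈ E4 := by
      have h1' : ∃ p ∈ P, p ∣ N := by
        by_contra hcon
        push Not at hcon
        exact h1 (Finset.mem_filter.2 ⟨hN1, hcon⟩)
      obtain ⟨p, hpP, m, rfl⟩ := h1'
      have hpI := (Finset.mem_filter.1 hpP).1
      have hpp := (Finset.mem_filter.1 hpP).2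
      rw [Finset.mem_Ioc] at hN1 hpI
      have hpm : ¬ p ∣ m := fun h => h2 (Finset.mem_filter.2
        ⟨Finset.mem_Ioc.2 hN1, p, Finset.mem_Ioc.2 hpI, Nat.mul_dvd_mul_left p h⟩)
      have hm0 : 0 < m := Nat.pos_of_mul_pos_left hN1.1 |> fun h => h
      refine Finset.mem_biUnion.2 ⟨m, Finset.mem_filter.2 ⟨Finset.mem_Ioc.2 ⟨hm0, ?_⟩, ?_⟩,
        Finset.mem_image.2 ⟨p, Finset.mem_filter.2 ⟨hpP, hpm, hNA⟩, rfl⟩⟩
      · rw [Nat.le_div_iff_mul_le (by omega)]
        nlinarith [hN1.2, hpI.1]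
      · have h3' : (p * m).divisors.card ≤ D := by
          by_contra hcon
          exact h3 (Finset.mem_filter.2 ⟨Finset.mem_Ioc.2 hN1, by omega⟩)
        exact (Finset.card_le_card (Nat.divisors_subset_of_dvd (by omega) (dvd_mul_left m p))).trans h3'
    simp [h4]
  have c4 : (E4.card : ℝ) ≤ 3 * (D : ℝ) ^ 6 * X / y := by
    have h1 : E4.card ≤ ∑ m ∈ M, 3 * D ^ 6 := by
      refine Finset.card_biUnion_le.trans (Finset.sum_le_sum fun m hm => ?_)
      refine Finset.card_image_le.trans ?_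
      refine (hA m (Bm m) fun p hp => ?_).trans ?_
      · have h2 := Finset.mem_filter.1 hp
        exact ⟨(Finset.mem_filter.1 h2.1).2, h2.2.1, h2.2.2⟩
      · have := (Finset.mem_filter.1 hm).2
        gcongr
    have h2 : E4.card ≤ (X / y) * (3 * D ^ 6) := by
      refine h1.trans ?_
      rw [Finset.sum_const, smul_eq_mul]
      gcongr
      refine (Finset.card_filter_le _ _).trans ?_
      simp
    have h3 : (E4.card : ℝ) ≤ ((X / y : ℕ) : ℝ) * (3 * (D : ℝ) ^ 6) := by exact_mod_cast h2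
    have h4 : ((X / y : ℕ) : ℝ) ≤ X / y := Nat.cast_div_le
    calc (E4.card : ℝ) ≤ ((X / y : ℕ) : ℝ) * (3 * (D : ℝ) ^ 6) := h3
      _ ≤ (X / y) * (3 * (D : ℝ) ^ 6) := by gcongr
      _ = _ := by ring
  have c1 := no_factor X P (fun p hp => ⟨(Finset.mem_filter.1 hp).2,
    (Finset.mem_Ioc.1 (Finset.mem_filter.1 hp).1).2⟩) hS
  have c2 := square_factor X y hy
  have c3 := many_divisors X D hD hX
  have hcard : (((Ioc 0 X).filter fun N => N ∈ A).card : ℝ) ≤ E1.card + E2.card + E3.card + E4.card := by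
    have h1 : ((Ioc 0 X).filter fun N => N ∈ A).card ≤ E1.card + E2.card + E3.card + E4.card := by
      refine (Finset.card_le_card hcov).trans ?_
      refine (Finset.card_union_le _ _).trans (Nat.add_le_add_right ?_ _)
      refine (Finset.card_union_le _ _).trans (Nat.add_le_add_right ?_ _)
      exact Finset.card_union_le _ _
    exact_mod_cast h1
  linarith

end Pool.Agent.TWP
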