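import Pool.Agent.Lib_helper14.TWP.Dens
import Pool.Agent.Lib_helper68.LEV.MRT

/-!
MP_df6280_nt. Density zero.
-/

set_option autoImplicit false

namespace Pool.Agent.TWP

open Finset Filter Topology

theorem window : ∀ᶠ k : ℕ in atTop, ∀ X : ℕ, Nat.log 2 X = k →
    Real.log k / 4 ≤ ∑ p ∈ (Ioc (k ^ 13) X).filter Nat.Prime, (1 : ℝ) / p := by
  obtain ⟨C, hC⟩ := Pool.Agent.LEV.mertens_two
  have hlog : Tendsto (fun k : ℕ => Real.log k) atTop atTop :=
    Real.tendsto_log_atTop.comp tendsto_natCast_atTop_atTop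
  have hpow : ∀ᶠ k : ℕ in atTop, (k : ℝ) ^ 13 / 2 ^ k < 1 :=
    (tendsto_pow_const_div_const_pow_of_one_lt 13 (by norm_num : (1 : ℝ) < 2)).eventually_lt_const
      (by norm_num)
  filter_upwards [hlog.eventually_ge_atTop (4 * (2 * C + Real.log 2 + Real.log 13)), hpow,
    eventually_ge_atTop 3] with k hk1 hk2 hk3 X hX
  have hX0 : X ≠ 0 := by
    rintro rfl
    simp at hX
    omega
  have hXk : 2 ^ k ≤ X := by rw [← hX]; exact Nat.pow_log_le_self 2 hX0
  have hkpos : (0 : ℝ) < k := by exact_mod_cast (show 0 < k by omega)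
  have hyX : k ^ 13 ≤ X := by
    refine le_trans ?_ hXk
    rw [div_lt_one (by positivity)] at hk2
    exact_mod_cast hk2.le
  have hy2 : 2 ≤ k ^ 13 := le_trans (by omega : 2 ≤ k) (Nat.le_self_pow (by norm_num) k)
  have hX2 : 2 ≤ X := hy2.trans hyX
  have e : ∑ p ∈ (Ioc (k ^ 13) X).filter Nat.Prime, (1 : ℝ) / p =
      ∑ p ∈ (Icc 1 X).filter Nat.Prime, (1 : ℝ) / p - ∑ p ∈ (Icc 1 (k ^ 13)).filter Nat.Prime, (1 : ℝ) / p := by
    have h1 : (Icc 1 X).filter Nat.Prime = (Icc 1 (k ^ 13)).filter Nat.Prime ∪ (Ioc (k ^ 13) X).filter Nat.Prime := by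
      rw [← Finset.filter_union]
      congr 1
      ext a
      simp only [Finset.mem_Icc, Finset.mem_union, Finset.mem_Ioc]
      omega
    have h2 : Disjoint ((Icc 1 (k ^ 13)).filter Nat.Prime) ((Ioc (k ^ 13) X).filter Nat.Prime) := by
      refine Finset.disjoint_filter_filter ?_
      rw [Finset.disjoint_left]
      intro a ha hb
      rw [Finset.mem_Icc] at ha
      rw [Finset.mem_Ioc] at hb
      omega
    rw [h1, Finset.sum_union h2]
    ring
  have hA := (abs_le.1 (hC X (by exact_mod_cast hX2))).1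
  have hB := (abs_le.1 (hC ((k ^ 13 : ℕ) : ℝ) (by exact_mod_cast hy2))).2
  rw [Nat.floor_natCast] at hA hB
  have hlk : 0 < Real.log k := Real.log_pos (by exact_mod_cast (show 1 < k by omega))
  have l1 : Real.log k - Real.log 2 ≤ Real.log (Real.log X) := by
    have h1 : (k : ℝ) / 2 ≤ Real.log X := by
      have h2 : Real.log ((2 : ℝ) ^ k) ≤ Real.log X :=
        Real.log_le_log (by positivity) (by exact_mod_cast hXk)
      rw [Real.log_pow] at h2
      have h3 := Real.log_two_gt_d9
      nlinarith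
    rw [← Real.log_div hkpos.ne' (by norm_num)]
    exact Real.log_le_log (by positivity) h1
  have l2 : Real.log (Real.log ((k ^ 13 : ℕ) : ℝ)) ≤ Real.log 13 + Real.log k / 2 := by
    push_cast
    rw [Real.log_pow]
    push_cast
    rw [Real.log_mul (by norm_num) hlk.ne']
    have h1 : Real.log (Real.log k) ≤ Real.log k / 2 := by
      have h2 := Real.add_one_le_exp (Real.log k / 2 - 1)
      have h3 : Real.log (Real.log k) ≤ Real.log (2 * Real.exp (Real.log k / 2 - 1)) := by
        refine Real.log_le_log hlk ?_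
        linarith
      rw [Real.log_mul (by norm_num) (Real.exp_pos _).ne', Real.log_exp] at h3
      have h4 := Real.log_two_lt_d9
      linarith
    linarith
  rw [e]
  linarith

open Classical in
theorem density_zero (A : Set ℕ) (hA : ∀ (m : ℕ) (S : Finset ℕ),
    (∀ p ∈ S, p.Prime ∧ ¬ p ∣ m ∧ p * m ∈ A) → S.card ≤ 3 * m.divisors.card ^ 6) :
    Tendsto (fun X : ℕ => (((Ioc 0 X).filter fun N => N ∈ A).card : ℝ) / X) atTop (𝓝 0) := by
  have hlogN : Tendsto (fun X : ℕ => Nat.log 2 X) atTop atTop := by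
    refine tendsto_atTop.2 fun b => ?_
    filter_upwards [eventually_ge_atTop (2 ^ b)] with X hX
    exact Nat.le_log_of_pow_le (by norm_num) hX
  have hbound : ∀ᶠ X : ℕ in atTop, (((Ioc 0 X).filter fun N => N ∈ A).card : ℝ) / X ≤
      12 / Real.log (Nat.log 2 X) + 6 / (Nat.log 2 X : ℝ) := by
    filter_upwards [hlogN.eventually window, hlogN.eventually (eventually_ge_atTop 3),
      eventually_ge_atTop 1] with X hw hk hX1
    set k := Nat.log 2 X with hkd
    have hw := hw X rfl
    have hkpos : (0 : ℝ) < k := by exact_mod_cast (show 0 < k by omega)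
    have hlk : 0 < Real.log k := Real.log_pos (by exact_mod_cast (show 1 < k by omega))
    have hS : 0 < ∑ p ∈ (Ioc (k ^ 13) X).filter Nat.Prime, (1 : ℝ) / p := lt_of_lt_of_le (by positivity) hw
    have hX0 : (0 : ℝ) < X := by exact_mod_cast hX1
    have hm := main_count A hA X (k ^ 13) (k ^ 2) (Nat.one_le_pow _ _ (by omega))
      (Nat.one_le_pow _ _ (by omega)) hX1 hS
    have t1 : 3 * (X : ℝ) / ∑ p ∈ (Ioc (k ^ 13) X).filter Nat.Prime, (1 : ℝ) / p ≤ X * (12 / Real.log k) := by
      calc 3 * (X : ℝ) / ∑ p ∈ (Ioc (k ^ 13) X).filter Nat.Prime, (1 : ℝ) / p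
          ≤ 3 * (X : ℝ) / (Real.log k / 4) := by gcongr
        _ = X * (12 / Real.log k) := by field_simp; ring
    have hk1 : (1 : ℝ) ≤ k := by exact_mod_cast (show 1 ≤ k by omega)
    have hk3 : (3 : ℝ) ≤ k := by exact_mod_cast hk
    have t2 : (X : ℝ) / ((k ^ 13 : ℕ) : ℝ) ≤ X * (1 / k) := by
      push_cast
      rw [mul_one_div]
      gcongr
      exact le_self_pow₀ hk1 (by norm_num)
    have hlX : Real.log X ≤ k + 1 := by
      have h1 : X < 2 ^ (k + 1) := Nat.lt_pow_succ_log_self (by norm_num) X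
      have h2 : Real.log X ≤ Real.log ((2 : ℝ) ^ (k + 1)) :=
        Real.log_le_log hX0 (by exact_mod_cast h1.le)
      rw [Real.log_pow] at h2
      have h3 := Real.log_two_lt_d9
      push_cast at h2
      nlinarith
    have t3 : (X : ℝ) * (1 + Real.log X) / ((k ^ 2 : ℕ) : ℝ) ≤ X * (2 / k) := by
      push_cast
      rw [div_le_iff₀ (by positivity)]
      have e : (X : ℝ) * (2 / k) * k ^ 2 = X * (2 * k) := by field_simp
      rw [e]
      gcongr
      linarith
    have t4 : 3 * (((k ^ 2 : ℕ) : ℝ)) ^ 6 * X / ((k ^ 13 : ℕ) : ℝ) ≤ X * (3 / k) := by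
      push_cast
      refine le_of_eq ?_
      field_simp
    rw [div_le_iff₀ hX0]
    calc _ ≤ _ := hm
      _ ≤ X * (12 / Real.log k) + X * (1 / k) + X * (2 / k) + X * (3 / k) := by linarith
      _ = (12 / Real.log k + 6 / k) * X := by ring
  have hlim : Tendsto (fun X : ℕ => 12 / Real.log (Nat.log 2 X) + 6 / (Nat.log 2 X : ℝ)) atTop (𝓝 0) := by
    have h1 : Tendsto (fun X : ℕ => ((Nat.log 2 X : ℕ) : ℝ)) atTop atTop :=
      tendsto_natCast_atTop_atTop.comp hlogN
    have h2 := (Real.tendsto_log_atTop.comp h1).const_div_atTop 12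
    have h3 := h1.const_div_atTop 6
    simpa using h2.add h3
  refine squeeze_zero' (Eventually.of_forall fun X => by positivity) hbound hlim

end Pool.Agent.TWP
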