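import Pool.Agent.Lib_helper14.TWP.Alg

/-!
MP_df6280_nt. Quadruples with two Diophantine properties: bounds, and the count of the primes.
-/

set_option autoImplicit false

namespace Pool.Agent.TWP

/-- `a 0, a 1, a 2, a 3` are distinct non-zero integers with the properties `D(n₁)` and `D(n₂)` -/
def Two (a : Fin 4 → ℤ) (n₁ n₂ : ℤ) : Prop :=
  Function.Injective a ∧ (∀ i, a i ≠ 0) ∧
    ∀ i j, i ≠ j → IsSquare (a i * a j + n₁) ∧ IsSquare (a i * a j + n₂)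

/-- the two square roots -/
theorem Two.roots {a : Fin 4 → ℤ} {n₁ n₂ : ℤ} (h : Two a n₁ n₂) (i j : Fin 4) (hij : i ≠ j) :
    ∃ r s : ℕ, a i * a j + n₁ = (r : ℤ) ^ 2 ∧ a i * a j + n₂ = (s : ℤ) ^ 2 := by
  obtain ⟨⟨r, hr⟩, ⟨s, hs⟩⟩ := h.2.2 i j hij
  refine ⟨r.natAbs, s.natAbs, ?_, ?_⟩
  · rw [hr, Int.natCast_natAbs, sq_abs]; ring
  · rw [hs, Int.natCast_natAbs, sq_abs]; ring

theorem Two.bound_n {a : Fin 4 → ℤ} {n₁ n₂ : ℤ} (h : Two a n₁ n₂) (hn : n₂ < n₁) :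
    |n₁| ≤ (n₁ - n₂) ^ 4 ∧ ∀ i, |a i| ≤ 2 * (n₁ - n₂) ^ 4 := by
  set N := n₁ - n₂ with hN
  have hN1 : 1 ≤ N := by omega
  have ht : ∀ i j, i ≠ j → 0 ≤ a i * a j + n₁ ∧ a i * a j + n₁ ≤ N ^ 2 := by
    intro i j hij
    obtain ⟨r, s, hr, hs⟩ := h.roots i j hij
    refine ⟨by rw [hr]; positivity, ?_⟩
    rw [hr]
    have h1 : (r : ℤ) ^ 2 - (s : ℤ) ^ 2 = N := by rw [← hr, ← hs, hN]; ring
    have hr0 : (0 : ℤ) ≤ r := Int.natCast_nonneg r
    have hs0 : (0 : ℤ) ≤ s := Int.natCast_nonneg s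
    have h2 : (s : ℤ) < r := by nlinarith
    have h3 : (r : ℤ) ≤ N := by nlinarith
    nlinarith
  have hinj := h.1
  have hne := h.2.1
  obtain ⟨t12, t12'⟩ := ht 0 1 (by decide)
  obtain ⟨t34, t34'⟩ := ht 2 3 (by decide)
  obtain ⟨t13, t13'⟩ := ht 0 2 (by decide)
  obtain ⟨t24, t24'⟩ := ht 1 3 (by decide)
  have hNsq : (0 : ℤ) ≤ N ^ 2 := by positivity
  have hn1 : |n₁| ≤ N ^ 4 := by
    set A := a 0 * a 1 + n₁ with hA
    set B := a 2 * a 3 + n₁ with hB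
    set C := a 0 * a 2 + n₁ with hC
    set D := a 1 * a 3 + n₁ with hD
    have hrel : n₁ * (A + B - C - D) = A * B - C * D := by
      rw [hA, hB, hC, hD]; ring
    have hAB : A * B ≤ N ^ 4 := by nlinarith [mul_nonneg t12 t34, mul_le_mul t12' t34' t34 hNsq]
    have hCD : C * D ≤ N ^ 4 := by nlinarith [mul_nonneg t13 t24, mul_le_mul t13' t24' t24 hNsq]
    have hAB0 : 0 ≤ A * B := mul_nonneg t12 t34
    have hCD0 : 0 ≤ C * D := mul_nonneg t13 t24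
    by_cases hs : A + B - C - D = 0
    · exfalso
      rw [hs, mul_zero] at hrel
      have h1 : (A - C) * (A - D) = 0 := by
        have e : B = C + D - A := by linarith
        rw [e] at hrel
        linear_combination hrel
      rcases mul_eq_zero.1 h1 with h2 | h2
      · have h3 : a 0 * (a 1 - a 2) = 0 := by rw [hA, hC] at h2; linear_combination h2
        rcases mul_eq_zero.1 h3 with h4 | h4
        · exact hne 0 h4
        · exact absurd (hinj (sub_eq_zero.1 h4)) (by decide)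
      · have h3 : a 1 * (a 0 - a 3) = 0 := by rw [hA, hD] at h2; linear_combination h2
        rcases mul_eq_zero.1 h3 with h4 | h4
        · exact hne 1 h4
        · exact absurd (hinj (sub_eq_zero.1 h4)) (by decide)
    · have h1 : 1 ≤ |A + B - C - D| := Int.one_le_abs hs
      have h2 : |n₁| * |A + B - C - D| = |A * B - C * D| := by rw [← abs_mul, hrel]
      have h3 : |A * B - C * D| ≤ N ^ 4 := abs_le.2 ⟨by linarith, by linarith⟩
      nlinarith [abs_nonneg n₁]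
  refine ⟨hn1, fun i => ?_⟩
  obtain ⟨j, hij⟩ : ∃ j : Fin 4, i ≠ j := by
    refine ⟨i + 1, ?_⟩
    fin_cases i <;> decide
  obtain ⟨g1, g2⟩ := ht i j hij
  have h1 : |a i * a j| ≤ 2 * N ^ 4 := by
    have h4 : N ^ 2 ≤ N ^ 4 := pow_le_pow_right₀ hN1 (by norm_num)
    obtain ⟨k1, k2⟩ := abs_le.1 hn1
    exact abs_le.2 ⟨by linarith, by linarith⟩
  rw [abs_mul] at h1
  have h2 : 1 ≤ |a j| := Int.one_le_abs (hne j)
  nlinarith [abs_nonneg (a i)]

/-- the divisor which is prime to `p` -/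
theorem Two.divisor {a : Fin 4 → ℤ} {n₁ n₂ : ℤ} (h : Two a n₁ n₂) {p m : ℕ} (hp : p.Prime)
    (hpm : ¬ p ∣ m) (hN : n₁ - n₂ = (p : ℤ) * m) (i j : Fin 4) (hij : i ≠ j) :
    ∃ e ∈ m.divisors, 4 * ((a i : ℝ) * a j + n₁) =
      (e : ℝ) ^ 2 + ((p : ℝ) * m) ^ 2 / (e : ℝ) ^ 2 + 2 * ((p : ℝ) * m) := by
  have hm : m ≠ 0 := by rintro rfl; exact hpm (dvd_zero p)
  have hppos : 0 < p := hp.pos
  obtain ⟨r, s, hr, hs⟩ := h.roots i j hij
  have h1 : (r : ℤ) ^ 2 - (s : ℤ) ^ 2 = (p : ℤ) * m := by rw [← hr, ← hs, ← hN]; ring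
  have hpm0 : (0 : ℤ) < (p : ℤ) * m := by positivity
  have hr0 : (0 : ℤ) ≤ r := Int.natCast_nonneg r
  have hs0 : (0 : ℤ) ≤ s := Int.natCast_nonneg s
  have h2 : (s : ℤ) < r := by nlinarith
  have h2' : s < r := by exact_mod_cast h2
  have h3 : (r - s) * (r + s) = p * m := by
    zify [h2'.le]
    linear_combination h1
  -- the general computation
  have comp : ∀ e f : ℕ, e * f = p * m → e + f = 2 * r → ¬ p ∣ e →
      ∃ e ∈ m.divisors, 4 * ((a i : ℝ) * a j + n₁) =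
        (e : ℝ) ^ 2 + ((p : ℝ) * m) ^ 2 / (e : ℝ) ^ 2 + 2 * ((p : ℝ) * m) := by
    intro e f hef hsum hpe
    have he0 : e ≠ 0 := by rintro rfl; exact hpe (dvd_zero p)
    have hdiv : e ∣ m := by
      have hc : Nat.Coprime e p := ((Nat.Prime.coprime_iff_not_dvd hp).2 hpe).symm
      exact hc.dvd_of_dvd_mul_left ⟨f, hef.symm⟩
    refine ⟨e, Nat.mem_divisors.2 ⟨hdiv, hm⟩, ?_⟩
    have e0 : (e : ℝ) ≠ 0 := by exact_mod_cast he0
    have hef' : (e : ℝ) * f = p * m := by exact_mod_cast hef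
    have hsum' : (e : ℝ) + f = 2 * r := by exact_mod_cast hsum
    have hr' : (a i : ℝ) * a j + n₁ = (r : ℝ) ^ 2 := by exact_mod_cast hr
    rw [hr', ← hef']
    have : ((e : ℝ) * f) ^ 2 / (e : ℝ) ^ 2 = (f : ℝ) ^ 2 := by
      field_simp
    rw [this]
    have h5 : (2 * (r : ℝ)) ^ 2 = ((e : ℝ) + f) ^ 2 := by rw [hsum']
    linear_combination h5
  have hor : ¬ p ∣ (r - s) ∨ ¬ p ∣ (r + s) := by
    by_contra hcon
    push Not at hcon
    have h4 : p * p ∣ p * m := by rw [← h3]; exact mul_dvd_mul hcon.1 hcon.2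
    exact hpm (Nat.dvd_of_mul_dvd_mul_left hppos h4)
  rcases hor with h4 | h4
  · exact comp (r - s) (r + s) h3 (by omega) h4
  · exact comp (r + s) (r - s) (by rw [mul_comm]; exact h3) (by omega) h4

/-- products and sums -/
def uu (t : (Fin 3 → ℕ) × (Fin 3 → ℕ)) (k : Fin 3) : ℝ := (t.1 k : ℝ) ^ 2 * (t.2 k : ℝ) ^ 2
def vv (t : (Fin 3 → ℕ) × (Fin 3 → ℕ)) (k : Fin 3) : ℝ := (t.1 k : ℝ) ^ 2 + (t.2 k : ℝ) ^ 2

theorem Two.tuple {a : Fin 4 → ℤ} {n₁ n₂ : ℤ} (h : Two a n₁ n₂) {p m : ℕ} (hp : p.Prime)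
    (hpm : ¬ p ∣ m) (hN : n₁ - n₂ = (p : ℤ) * m) :
    ∃ t : (Fin 3 → ℕ) × (Fin 3 → ℕ),
      (t.1 ∈ Fintype.piFinset fun _ => m.divisors) ∧ (t.2 ∈ Fintype.piFinset fun _ => m.divisors) ∧
      ¬ (c0 (uu t) (vv t) = 0 ∧ c1 (uu t) (vv t) = 0 ∧ c2 (uu t) (vv t) = 0) ∧
      Fq (uu t) (vv t) (((p : ℝ) * m) ^ 2) = 0 := by
  choose! e he heq using h.divisor hp hpm hN
  have hinj := h.1
  have hne := h.2.1
  have key : ∀ i j k l : Fin 4, i ≠ j → k ≠ l → (e i j : ℝ) ^ 2 = (e k l : ℝ) ^ 2 →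
      a i * a j = a k * a l := by
    intro i j k l hij hkl hh
    have h1 := heq i j hij
    have h2 := heq k l hkl
    rw [hh] at h1
    have h3 : (a i : ℝ) * a j = (a k : ℝ) * a l := by linarith
    exact_mod_cast h3
  -- cancellation
  have canc : ∀ i j k l : Fin 4, i ≠ j → k ≠ l →
      (i = k ∧ j ≠ l ∨ i = l ∧ j ≠ k ∨ j = k ∧ i ≠ l ∨ j = l ∧ i ≠ k) →
      (e i j : ℝ) ^ 2 ≠ (e k l : ℝ) ^ 2 := by
    intro i j k l hij hkl hc hh
    have h1 := key i j k l hij hkl hh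
    rcases hc with ⟨rfl, h2⟩ | ⟨rfl, h2⟩ | ⟨rfl, h2⟩ | ⟨rfl, h2⟩
    · exact h2 (hinj (mul_left_cancel₀ (hne i) h1))
    · exact h2 (hinj (mul_left_cancel₀ (hne i) (by rw [h1]; ring)))
    · exact h2 (hinj (mul_left_cancel₀ (hne j) (by rw [← h1]; ring)))
    · exact h2 (hinj (mul_right_cancel₀ (hne j) h1))
  let t : (Fin 3 → ℕ) × (Fin 3 → ℕ) := (![e 0 1, e 0 2, e 0 3], ![e 2 3, e 1 3, e 1 2])
  have ht1 : t.1 ∈ Fintype.piFinset fun _ => m.divisors := by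
    rw [Fintype.mem_piFinset]
    intro k
    fin_cases k
    · exact he 0 1 (by decide)
    · exact he 0 2 (by decide)
    · exact he 0 3 (by decide)
  have ht2 : t.2 ∈ Fintype.piFinset fun _ => m.divisors := by
    rw [Fintype.mem_piFinset]
    intro k
    fin_cases k
    · exact he 2 3 (by decide)
    · exact he 1 3 (by decide)
    · exact he 1 2 (by decide)
  have hpos1 : ∀ k, 0 < (t.1 k : ℝ) ^ 2 := fun k => by
    have := Nat.pos_of_mem_divisors (Fintype.mem_piFinset.1 ht1 k)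
    positivity
  have hpos2 : ∀ k, 0 < (t.2 k : ℝ) ^ 2 := fun k => by
    have := Nat.pos_of_mem_divisors (Fintype.mem_piFinset.1 ht2 k)
    positivity
  refine ⟨t, ht1, ht2, ?_, ?_⟩
  · refine no_identity (u := uu t) (v := vv t) (x := fun k => (t.1 k : ℝ) ^ 2)
      (y := fun k => (t.2 k : ℝ) ^ 2) (fun k => rfl) (fun k => rfl) hpos1 hpos2 ?_
    intro k l hkl
    fin_cases k <;> fin_cases l <;> first | exact absurd rfl hkl | skip
    all_goals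
      refine ⟨?_, ?_, ?_, ?_⟩ <;>
        exact canc _ _ _ _ (by decide) (by decide) (by decide)
  · refine Fq_zero (u := uu t) (v := vv t) (x := fun k => (t.1 k : ℝ) ^ 2)
      (y := fun k => (t.2 k : ℝ) ^ 2) (fun k => rfl) (fun k => rfl) hpos1 hpos2
      (ν := 4 * n₁ - 2 * ((p : ℝ) * m)) (K := 16 * ((a 0 : ℝ) * a 1 * a 2 * a 3)) ?_
    have e01 := heq 0 1 (by decide)
    have e02 := heq 0 2 (by decide)
    have e03 := heq 0 3 (by decide)
    have e12 := heq 1 2 (by decide)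
    have e13 := heq 1 3 (by decide)
    have e23 := heq 2 3 (by decide)
    intro k
    fin_cases k
    · show ((e 0 1 : ℝ) ^ 2 + _ / (e 0 1 : ℝ) ^ 2 - _) * ((e 2 3 : ℝ) ^ 2 + _ / (e 2 3 : ℝ) ^ 2 - _) = _
      have g1 : (e 0 1 : ℝ) ^ 2 + ((p : ℝ) * m) ^ 2 / (e 0 1 : ℝ) ^ 2 - (4 * n₁ - 2 * ((p : ℝ) * m)) =
        4 * (a 0 * a 1) := by linarith
      have g2 : (e 2 3 : ℝ) ^ 2 + ((p : ℝ) * m) ^ 2 / (e 2 3 : ℝ) ^ 2 - (4 * n₁ - 2 * ((p : ℝ) * m)) =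
        4 * (a 2 * a 3) := by linarith
      rw [g1, g2]; ring
    · show ((e 0 2 : ℝ) ^ 2 + _ / (e 0 2 : ℝ) ^ 2 - _) * ((e 1 3 : ℝ) ^ 2 + _ / (e 1 3 : ℝ) ^ 2 - _) = _
      have g1 : (e 0 2 : ℝ) ^ 2 + ((p : ℝ) * m) ^ 2 / (e 0 2 : ℝ) ^ 2 - (4 * n₁ - 2 * ((p : ℝ) * m)) =
        4 * (a 0 * a 2) := by linarith
      have g2 : (e 1 3 : ℝ) ^ 2 + ((p : ℝ) * m) ^ 2 / (e 1 3 : ℝ) ^ 2 - (4 * n₁ - 2 * ((p : ℝ) * m)) =
        4 * (a 1 * a 3) := by linarith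
      rw [g1, g2]; ring
    · show ((e 0 3 : ℝ) ^ 2 + _ / (e 0 3 : ℝ) ^ 2 - _) * ((e 1 2 : ℝ) ^ 2 + _ / (e 1 2 : ℝ) ^ 2 - _) = _
      have g1 : (e 0 3 : ℝ) ^ 2 + ((p : ℝ) * m) ^ 2 / (e 0 3 : ℝ) ^ 2 - (4 * n₁ - 2 * ((p : ℝ) * m)) =
        4 * (a 0 * a 3) := by linarith
      have g2 : (e 1 2 : ℝ) ^ 2 + ((p : ℝ) * m) ^ 2 / (e 1 2 : ℝ) ^ 2 - (4 * n₁ - 2 * ((p : ℝ) * m)) =
        4 * (a 1 * a 2) := by linarith
      rw [g1, g2]; ring

/-- for a fixed cofactor `m` there are few primes -/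
theorem card_primes (m : ℕ) (S : Finset ℕ) (hS : ∀ p ∈ S, p.Prime ∧ ¬ p ∣ m ∧
    ∃ a n₁ n₂, Two a n₁ n₂ ∧ n₁ - n₂ = (p : ℤ) * m) : S.card ≤ 3 * m.divisors.card ^ 6 := by
  classical
  let T := (Fintype.piFinset fun _ : Fin 3 => m.divisors) ×ˢ (Fintype.piFinset fun _ : Fin 3 => m.divisors)
  let St : (Fin 3 → ℕ) × (Fin 3 → ℕ) → Finset ℕ := fun t =>
    S.filter fun p => ¬ (c0 (uu t) (vv t) = 0 ∧ c1 (uu t) (vv t) = 0 ∧ c2 (uu t) (vv t) = 0) ∧
      Fq (uu t) (vv t) (((p : ℝ) * m) ^ 2) = 0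
  have hsub : S ⊆ T.biUnion St := by
    intro p hpS
    obtain ⟨hp, hpm, a, n₁, n₂, h2, hN⟩ := hS p hpS
    obtain ⟨t, t1, t2, t3, t4⟩ := h2.tuple hp hpm hN
    exact Finset.mem_biUnion.2 ⟨t, Finset.mem_product.2 ⟨t1, t2⟩, Finset.mem_filter.2 ⟨hpS, t3, t4⟩⟩
  have hcard : ∀ t ∈ T, (St t).card ≤ 3 := by
    intro t ht
    by_cases hemp : (St t).Nonempty
    · obtain ⟨p0, hp0⟩ := hemp
      have hnd := (Finset.mem_filter.1 hp0).2.1
      have hm : (m : ℝ) ≠ 0 := by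
        have hpm := (hS p0 (Finset.mem_filter.1 hp0).1).2.1
        intro h0
        have : m = 0 := by exact_mod_cast h0
        exact hpm (this ▸ dvd_zero p0)
      have hinj : Set.InjOn (fun p : ℕ => ((p : ℝ) * m) ^ 2) (St t : Set ℕ) := by
        intro p _ p' _ h
        have h1 : (p : ℝ) * m = (p' : ℝ) * m ∨ (p : ℝ) * m = -((p' : ℝ) * m) := sq_eq_sq_iff_eq_or_eq_neg.1 h
        rcases h1 with h1 | h1
        · exact_mod_cast mul_right_cancel₀ hm h1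
        · have h2 : (p : ℝ) = -(p' : ℝ) := mul_right_cancel₀ hm (by rw [h1]; ring)
          have h3 : (0 : ℝ) ≤ p := Nat.cast_nonneg _
          have h4 : (0 : ℝ) ≤ p' := Nat.cast_nonneg _
          have h5 : (p : ℝ) = 0 := by linarith
          have h6 : (p' : ℝ) = 0 := by linarith
          exact_mod_cast h5.trans h6.symm
      rw [← Finset.card_image_of_injOn hinj]
      refine roots_card (uu t 0 * uu t 1 * uu t 2 * c0 (uu t) (vv t)) (c1 (uu t) (vv t))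
        (c2 (uu t) (vv t)) (- c0 (uu t) (vv t)) ?_ _ ?_
      · rintro ⟨-, h1, h2, h3⟩
        exact hnd ⟨neg_eq_zero.1 h3, h1, h2⟩
      · intro q hq
        obtain ⟨p, hp, rfl⟩ := Finset.mem_image.1 hq
        have h1 := (Finset.mem_filter.1 hp).2.2
        rw [Fq_eq] at h1
        linear_combination h1
    · rw [Finset.not_nonempty_iff_eq_empty] at hemp
      rw [hemp]; simp
  calc S.card ≤ (T.biUnion St).card := Finset.card_le_card hsub
    _ ≤ ∑ t ∈ T, (St t).card := Finset.card_biUnion_le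
    _ ≤ T.card • 3 := Finset.sum_le_card_nsmul _ _ _ hcard
    _ = 3 * m.divisors.card ^ 6 := by
        simp only [T, Finset.card_product, Fintype.card_piFinset, Finset.prod_const, Finset.card_univ,
          Fintype.card_fin, smul_eq_mul]
        ring

end Pool.Agent.TWP
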